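import Pool.Agent.H66.LD.Walls

/-!
# A local criterion for the nef cone conjecture, with several chambers
-/

set_option autoImplicit false
set_option linter.unusedSectionVars false

open scoped NNReal

open Pool.Agent.E8helper40.CC Pool.Agent.H88.NC

namespace Pool.Agent.H66.LDN

variable {n : ℕ}

/-- The translates of the cones generated by the `S i`, `i ∈ I`, under the group `B` cover the
effective nef cone locally: each `S i` is a finite set of integral classes in the effective nef cone,
one of the cones has interior points, and every class of one of these cones which is in the interior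
of the nef cone and in none of the finitely many subspaces in `Ls`, all of codimension at least 2, has
a neighbourhood which is covered by the translates. -/
structure LocallyCovers (X : Pair n) (B : Subgroup X.Aut) {I : Type} (S : I → Finset (Fin n → ℝ))
    (Ls : Finset (Submodule ℝ (Fin n → ℝ))) : Prop where
  mem : ∀ i, ∀ v ∈ S i, IsInt v ∧ v ∈ X.Nef ∩ X.Eff
  solid : ∃ i, (interior (cone (S i : Set (Fin n → ℝ)))).Nonempty
  codim : ∀ L ∈ Ls, Module.finrank ℝ L + 2 ≤ n
  covers : ∀ i, ∀ x ∈ cone (S i : Set (Fin n → ℝ)), x ∈ interior X.Nef → (∀ L ∈ Ls, x ∉ L) →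
    ∃ U ∈ nhds x, ∀ u ∈ U, ∃ j, ∃ g ∈ B, u ∈ X.push g '' cone (S j : Set (Fin n → ℝ))

/-- The walls of the cones generated by the `S i`, `i ∈ I`, are paired by elements of `B`: each `S i`
is a finite set of integral classes in the effective nef cone; one of the cones has interior points;
in the nef cone the cone generated by `S i` is given by the inequalities `m x ≥ 0`, where `m` runs
over the finite set `Λ i` of forms no two of which are proportional; and each `m ∈ Λ i` is nonnegative
on the nef cone or there are `j ∈ I`, `g ∈ B`, `m' ∈ Λ j` and `c > 0` with `m (g_* x) = - c m' x` for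
all `x`, and `g⁻¹` maps the part of the wall `m = 0` of the cone of `S i` which is in the interior of
the nef cone into the cone of `S j` (hence into its wall `m' = 0`). For instance, `g = 1` if the two
cones have this wall in common. -/
structure PairedWalls (X : Pair n) (B : Subgroup X.Aut) {I : Type} (S : I → Finset (Fin n → ℝ))
    (Λ : I → Finset ((Fin n → ℝ) →ₗ[ℝ] ℝ)) : Prop where
  mem : ∀ i, ∀ v ∈ S i, IsInt v ∧ v ∈ X.Nef ∩ X.Eff
  solid : ∃ i, (interior (cone (S i : Set (Fin n → ℝ)))).Nonempty
  nonneg : ∀ i, ∀ m ∈ Λ i, ∀ v ∈ S i, 0 ≤ m v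
  le : ∀ i, ∀ x ∈ X.Nef, (∀ m ∈ Λ i, 0 ≤ m x) → x ∈ cone (S i : Set (Fin n → ℝ))
  indep : ∀ i, ∀ m ∈ Λ i, ∀ m' ∈ Λ i, m ≠ m' → LinearIndependent ℝ ![m, m']
  paired : ∀ i, ∀ m ∈ Λ i, (∀ x ∈ X.Nef, 0 ≤ m x) ∨
    ∃ j, ∃ g ∈ B, ∃ m' ∈ Λ j, ∃ c : ℝ, 0 < c ∧ (∀ x, m (X.push g x) = -c * m' x) ∧
      ∀ x ∈ cone (S i : Set (Fin n → ℝ)), m x = 0 → x ∈ interior X.Nef →
        X.push g⁻¹ x ∈ cone (S j : Set (Fin n → ℝ))

variable {X : Pair n} {I : Type}

theorem LocallyCovers.toMov {B : Subgroup X.Aut} {S : I → Finset (Fin n → ℝ)}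
    {Ls : Finset (Submodule ℝ (Fin n → ℝ))} (h : LocallyCovers X B S Ls) :
    LD.LocallyCovers X.toMov B S Ls where
  mem := h.mem
  solid := h.solid
  codim := h.codim
  covers := h.covers

theorem LocallyCovers.ofMov {B : Subgroup X.Aut} {S : I → Finset (Fin n → ℝ)}
    {Ls : Finset (Submodule ℝ (Fin n → ℝ))} (h : LD.LocallyCovers X.toMov B S Ls) :
    LocallyCovers X B S Ls where
  mem := h.mem
  solid := h.solid
  codim := h.codim
  covers := h.covers

theorem PairedWalls.toMov {B : Subgroup X.Aut} {S : I → Finset (Fin n → ℝ)}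
    {Λ : I → Finset ((Fin n → ℝ) →ₗ[ℝ] ℝ)} (h : PairedWalls X B S Λ) :
    LD.PairedWalls X.toMov B S Λ where
  mem := h.mem
  solid := h.solid
  nonneg := h.nonneg
  le := h.le
  indep := h.indep
  paired := h.paired

end Pool.Agent.H66.LDN
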